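import Mathlib
import Pool.Agent.R422.CT.Fin

set_option autoImplicit false

/-!
# The block row sums of random contingency tables do not satisfy the expected limit theorem

For `C = 1/3`, `B = 6`, `δ = 19/20` one has `B_c = 3`, and the sum `S` of the entries of the first
row in the last `n` columns of a uniformly random table is at most `n - d/4` (with `d = ⌊n ^ δ⌋`,
much larger than `√n`) with probability tending to one along `n = (3 m) ^ 20`. So
`(S - B_c C n) / √n` does not converge in distribution.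
-/

namespace Pool.Agent.Results.MP_1d48d5_pr.BlockRowSumShift

open MeasureTheory ProbabilityTheory Filter Topology
open scoped BoundedContinuousFunction

/-- Contingency tables: matrices with entries in `ℕ` (as functions of the pair of indices) whose
row sums are given by `r` and whose column sums are given by `c`. -/
def tables {I J : Type} [Fintype I] [Fintype J] (r : I → ℕ) (c : J → ℕ) : Set (I × J → ℕ) :=
  {X | (∀ i, ∑ j, X (i, j) = r i) ∧ ∀ j, ∑ i, X (i, j) = c j}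

/-- The margins: the first `d = ⌊n ^ δ⌋` are `⌊B C n⌋`, the remaining `n` are `⌊C n⌋`. -/
noncomputable def margins (B C δ : ℝ) (n : ℕ) : Fin ⌊(n : ℝ) ^ δ⌋₊ ⊕ Fin n → ℕ :=
  Sum.elim (fun _ => ⌊B * C * n⌋₊) (fun _ => ⌊C * n⌋₊)

/-- The sum of the entries of the first row in the last `n` columns. -/
def rowSum {d n : ℕ} (X : (Fin d ⊕ Fin n) × (Fin d ⊕ Fin n) → ℕ) : ℕ :=
  ∑ i : Fin d, if (i : ℕ) = 0 then ∑ k : Fin n, X (Sum.inl i, Sum.inr k) else 0

/-- The critical value `B_c = 1 + √(1 + 1 / C)`. -/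
noncomputable def Bc (C : ℝ) : ℝ := 1 + √(1 + 1 / C)

/-- Convergence in distribution of `(S - B_c C n) / √n`, for the uniform distribution on the
tables, to `√(B_c C + (B_c C)²)` times a standard normal variable: convergence of the expectations
of all bounded continuous functions. -/
def LimitTheorem (B C δ : ℝ) : Prop :=
  ∀ f : ℝ →ᵇ ℝ, Tendsto (fun n : ℕ =>
      ∫ X, f ((rowSum X - Bc C * C * n) / √n)
        ∂(uniformOn (tables (margins B C δ n) (margins B C δ n))))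
    atTop (𝓝 (∫ x, f (√(Bc C * C + (Bc C * C) ^ 2) * x) ∂(gaussianReal 0 1)))

open Pool.Agent.R422.CT in
lemma tables_eq {I : Type} [Fintype I] [DecidableEq I] (r : I → ℕ) :
    tables r r = ((tab r : Finset (I × I → ℕ)) : Set (I × I → ℕ)) := by
  ext X
  rw [Finset.mem_coe, mem_tab]
  rfl

/-- the test function -/
noncomputable def tf : ℝ →ᵇ ℝ :=
  BoundedContinuousFunction.ofNormedAddCommGroup (fun x => max 0 (min 1 (x + 2)))
    (by fun_prop) 1 (fun x => by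
      rw [Real.norm_of_nonneg (le_max_left _ _)]
      exact max_le (by norm_num) (min_le_left _ _))

lemma tf_apply (x : ℝ) : tf x = max 0 (min 1 (x + 2)) := rfl

lemma tf_nonneg (x : ℝ) : 0 ≤ tf x := le_max_left _ _

lemma tf_le (x : ℝ) : tf x ≤ 1 := max_le (by norm_num) (min_le_left _ _)

lemma tf_zero {x : ℝ} (hx : x ≤ -2) : tf x = 0 := by
  rw [tf_apply]
  apply max_eq_left
  exact (min_le_right _ _).trans (by linarith)

lemma limit_pos (σ : ℝ) (hσ : 0 ≤ σ) : 0 < ∫ x, tf (σ * x) ∂(gaussianReal 0 1) := by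
  have hint : Integrable (fun x : ℝ => tf (σ * x)) (gaussianReal 0 1) := by
    refine (integrable_const (1 : ℝ)).mono'
      ((tf.continuous.comp (continuous_const.mul continuous_id)).aestronglyMeasurable)
      (Eventually.of_forall fun x => ?_)
    rw [Real.norm_of_nonneg (tf_nonneg _)]
    exact tf_le _
  rw [integral_pos_iff_support_of_nonneg (fun x => tf_nonneg _) hint]
  have h1 : Set.Ioi (0 : ℝ) ⊆ Function.support (fun x : ℝ => tf (σ * x)) := by
    intro x hx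
    rw [Function.mem_support, tf_apply]
    have h2 : 0 ≤ σ * x := mul_nonneg hσ (le_of_lt hx)
    have h3 : 0 < min 1 (σ * x + 2) := lt_min one_pos (by linarith)
    exact (lt_max_of_lt_right h3).ne'
  refine lt_of_lt_of_le ?_ (measure_mono h1)
  rw [pos_iff_ne_zero]
  intro h0
  have := gaussianReal_absolutelyContinuous' (0 : ℝ) (v := 1) one_ne_zero h0
  simp at this

open Pool.Agent.R422.CT in
lemma expect_le {d n K M : ℕ} (hd0 : 0 < d) {g : ℝ → ℝ} {a : ℝ} (hg0 : ∀ x, 0 ≤ g x)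
    (hg1 : ∀ x, g x ≤ 1) (hg : ∀ x, x ≤ a → g x = 0) (hT : 0 < (tab (mar d n K M)).card) {p : ℝ}
    (hp : ∀ i : Fin d, (((tab (mar d n K M)).filter fun X =>
        a < ∑ l, (X (Sum.inl i, Sum.inr l) : ℝ)).card : ℝ) ≤ p * (tab (mar d n K M)).card) :
    ∫ X, g (rowSum X : ℝ) ∂(uniformOn ((tab (mar d n K M) :
      Finset ((Fin d ⊕ Fin n) × (Fin d ⊕ Fin n) → ℕ)) :
        Set ((Fin d ⊕ Fin n) × (Fin d ⊕ Fin n) → ℕ))) ≤ p := by
  classical
  set T := tab (mar d n K M) with hTd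
  set i₀ : Fin d := ⟨0, hd0⟩ with hi₀
  set F := T.filter fun X => a < ∑ l, (X (Sum.inl i₀, Sum.inr l) : ℝ) with hF
  have hrs : ∀ X : (Fin d ⊕ Fin n) × (Fin d ⊕ Fin n) → ℕ,
      (rowSum X : ℝ) = ∑ l, (X (Sum.inl i₀, Sum.inr l) : ℝ) := by
    intro X
    have : rowSum X = ∑ l, X (Sum.inl i₀, Sum.inr l) := by
      rw [rowSum, Finset.sum_eq_single i₀]
      · simp [hi₀]
      · intro b _ hb
        rw [if_neg]
        intro h
        exact hb (Fin.ext h)
      · intro h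
        exact absurd (Finset.mem_univ _) h
    rw [this]; push_cast; rfl
  set μ := uniformOn (T : Set ((Fin d ⊕ Fin n) × (Fin d ⊕ Fin n) → ℕ)) with hμ
  have hprob : IsProbabilityMeasure μ :=
    isProbabilityMeasure_uniformOn T.finite_toSet (Finset.coe_nonempty.2 (Finset.card_pos.1 hT))
  have hFm : MeasurableSet (F : Set ((Fin d ⊕ Fin n) × (Fin d ⊕ Fin n) → ℕ)) :=
    F.finite_toSet.measurableSet
  have hTm : MeasurableSet (T : Set ((Fin d ⊕ Fin n) × (Fin d ⊕ Fin n) → ℕ)) :=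
    T.finite_toSet.measurableSet
  have hae : ∀ᵐ X ∂μ, X ∈ (T : Set ((Fin d ⊕ Fin n) × (Fin d ⊕ Fin n) → ℕ)) := by
    rw [hμ, uniformOn]
    exact ae_cond_mem hTm
  calc ∫ X, g (rowSum X : ℝ) ∂μ
      ≤ ∫ X, (F : Set ((Fin d ⊕ Fin n) × (Fin d ⊕ Fin n) → ℕ)).indicator 1 X ∂μ := by
        refine integral_mono_of_nonneg (Eventually.of_forall fun X => hg0 _)
          ((integrable_const (1 : ℝ)).indicator hFm) ?_
        filter_upwards [hae] with X hX
        by_cases hXF : X ∈ F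
        · rw [Set.indicator_of_mem (Finset.mem_coe.2 hXF)]
          exact hg1 _
        · rw [Set.indicator_of_notMem (fun h => hXF (Finset.mem_coe.1 h))]
          refine le_of_eq (hg _ ?_)
          rw [hF, Finset.mem_filter, not_and, not_lt] at hXF
          rw [hrs]
          exact hXF (Finset.mem_coe.1 hX)
    _ = μ.real (F : Set ((Fin d ⊕ Fin n) × (Fin d ⊕ Fin n) → ℕ)) := by
        rw [integral_indicator_one hFm]
    _ = (F.card : ℝ) / T.card := by
        rw [measureReal_def, hμ, uniformOn_apply_finset, ENNReal.toReal_div]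
        have : T ∩ F = F := Finset.inter_eq_right.2 (Finset.filter_subset _ _)
        rw [this]
        simp
    _ ≤ p := by
        rw [div_le_iff₀ (by exact_mod_cast hT)]
        exact hp i₀

lemma event (θ : ℝ) (hθ : 0 < θ) : ∀ᶠ m : ℕ in atTop, 12 ≤ (3 * m : ℝ) ∧
    8 * (3 * m : ℝ) ^ 20 * Real.exp (-((3 * m : ℝ) ^ 3 / 32000)) ≤ 1 / 4 ∧
    11 * 576 ≤ θ * (3 * m : ℝ) ∧ 2 * Real.exp (-(3 * m : ℝ)) ≤ θ := by
  have h0 : Tendsto (fun m : ℕ => (3 * m : ℝ)) atTop atTop :=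
    tendsto_natCast_atTop_atTop.const_mul_atTop (by norm_num)
  have h1 : ∀ᶠ x : ℝ in atTop, 12 ≤ x := eventually_ge_atTop 12
  have h3 : ∀ᶠ x : ℝ in atTop, 11 * 576 ≤ θ * x := by
    filter_upwards [eventually_ge_atTop (11 * 576 / θ)] with x hx
    rw [div_le_iff₀ hθ] at hx
    linarith
  have h4 : ∀ᶠ x : ℝ in atTop, 2 * Real.exp (-x) ≤ θ := by
    have h := (Real.tendsto_exp_neg_atTop_nhds_zero.const_mul 2).eventually
      (gt_mem_nhds (show (2 : ℝ) * 0 < θ by rw [mul_zero]; exact hθ))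
    filter_upwards [h] with x hx using hx.le
  have h2 : ∀ᶠ x : ℝ in atTop, 8 * x ^ 20 * Real.exp (-(x ^ 3 / 32000)) ≤ 1 / 4 := by
    have e1 : Tendsto (fun x : ℝ => x / 32000) atTop atTop :=
      tendsto_id.atTop_div_const (by norm_num)
    have e2 := ((Real.tendsto_pow_mul_exp_neg_atTop_nhds_zero 20).comp e1).const_mul
      (8 * 32000 ^ 20)
    rw [mul_zero] at e2
    filter_upwards [e2.eventually (gt_mem_nhds (show (0 : ℝ) < 1 / 4 by norm_num)),
      eventually_ge_atTop (1 : ℝ)] with x hx hx1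
    have e3 : 8 * 32000 ^ 20 * ((x / 32000) ^ 20 * Real.exp (-(x / 32000))) =
        8 * x ^ 20 * Real.exp (-(x / 32000)) := by
      rw [div_pow]; field_simp
    simp only [Function.comp_apply] at hx
    rw [e3] at hx
    refine le_trans ?_ hx.le
    apply mul_le_mul_of_nonneg_left _ (by positivity)
    apply Real.exp_le_exp.2
    have : x ≤ x ^ 3 := le_self_pow₀ hx1 (by norm_num)
    linarith
  exact h0.eventually (h1.and (h2.and (h3.and h4)))

open Pool.Agent.R422.CT in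
/-- The limit theorem fails for some `C > 0`, `B > B_c` and `0 < δ < 1`. -/
theorem result : ∃ B C δ : ℝ, 0 < C ∧ Bc C < B ∧ 0 < δ ∧ δ < 1 ∧ ¬ LimitTheorem B C δ := by
  have hBc : Bc (1 / 3) = 3 := by
    rw [Bc]
    have : (1 + 1 / (1 / 3) : ℝ) = 2 ^ 2 := by norm_num
    rw [this, Real.sqrt_sq (by norm_num)]
    norm_num
  refine ⟨6, 1 / 3, 19 / 20, by norm_num, by rw [hBc]; norm_num, by norm_num, by norm_num, ?_⟩
  intro hlim
  have hl := hlim tf
  set κ := ∫ x, tf (√(Bc (1 / 3) * (1 / 3) + (Bc (1 / 3) * (1 / 3)) ^ 2) * x) ∂(gaussianReal 0 1)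
    with hκ
  have hκ0 : 0 < κ := limit_pos _ (Real.sqrt_nonneg _)
  have hseq : Tendsto (fun m : ℕ => (3 * m) ^ 20) atTop atTop := by
    refine tendsto_atTop_mono (fun m => ?_) tendsto_id
    calc m ≤ 3 * m := by omega
      _ ≤ (3 * m) ^ 20 := Nat.le_self_pow (by norm_num) _
  have hl2 := (hl.comp hseq).eventually (lt_mem_nhds (half_lt_self hκ0))
  obtain ⟨m, hm1, hm2, hm3, hm4, hm5⟩ := (hl2.and (event (κ / 8) (by positivity))).exists
  set Q : ℝ := 3 * m with hQ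
  set n : ℕ := (3 * m) ^ 20 with hn
  have hQ0 : 0 < Q := by linarith
  have hnQ : (n : ℝ) = Q ^ 20 := by rw [hn, hQ]; push_cast; rfl
  have hd : ⌊(n : ℝ) ^ (19 / 20 : ℝ)⌋₊ = (3 * m) ^ 19 := by
    have h1 : (n : ℝ) ^ (19 / 20 : ℝ) = (((3 * m) ^ 19 : ℕ) : ℝ) := by
      rw [hnQ, ← Real.rpow_natCast, ← Real.rpow_mul hQ0.le]
      have : ((20 : ℕ) : ℝ) * (19 / 20) = ((19 : ℕ) : ℝ) := by norm_num
      rw [this, Real.rpow_natCast, hQ]
      push_cast
      rfl
    rw [h1, Nat.floor_natCast]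
  have hdQ : (⌊(n : ℝ) ^ (19 / 20 : ℝ)⌋₊ : ℝ) = Q ^ 19 := by
    rw [hd, hQ]; push_cast; rfl
  have hK : (⌊(6 : ℝ) * (1 / 3) * n⌋₊ : ℝ) = 2 * Q ^ 20 := by
    have : (6 : ℝ) * (1 / 3) * n = ((2 * n : ℕ) : ℝ) := by push_cast; ring
    rw [this, Nat.floor_natCast]
    push_cast
    rw [hnQ]
  have hM : (⌊(1 / 3 : ℝ) * n⌋₊ : ℝ) = Q ^ 20 / 3 := by
    obtain ⟨c, hc⟩ : 3 ∣ n := by
      rw [hn]; exact dvd_pow (Dvd.intro _ rfl) (by norm_num)
    have h1 : (1 / 3 : ℝ) * n = (c : ℝ) := by rw [hc]; push_cast; ring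
    rw [h1, Nat.floor_natCast, ← hnQ, hc]
    push_cast
    ring
  obtain ⟨hT, hbad⟩ := fin_main (d := ⌊(n : ℝ) ^ (19 / 20 : ℝ)⌋₊) (n := n)
    (K := ⌊(6 : ℝ) * (1 / 3) * n⌋₊) (M := ⌊(1 / 3 : ℝ) * n⌋₊) (Q := Q) (θ := κ / 8)
    (by positivity) hm2 hdQ hnQ ⟨(3 * m) ^ 16, by rw [hQ]; push_cast; rfl⟩ hK hM hm3 hm4
  have hd0 : 0 < ⌊(n : ℝ) ^ (19 / 20 : ℝ)⌋₊ := by
    have : (0 : ℝ) < (⌊(n : ℝ) ^ (19 / 20 : ℝ)⌋₊ : ℝ) := by rw [hdQ]; positivity
    exact_mod_cast this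
  have hsqrt : √(n : ℝ) = Q ^ 10 := by
    rw [hnQ]
    have : Q ^ 20 = (Q ^ 10) ^ 2 := by ring
    rw [this, Real.sqrt_sq (by positivity)]
  have hub := expect_le hd0 (g := fun x => tf ((x - Bc (1 / 3) * (1 / 3) * n) / √n))
    (a := Q ^ 20 - Q ^ 19 / 4) (fun x => tf_nonneg _) (fun x => tf_le _) (fun x hx => tf_zero (by
      rw [hsqrt, hBc, hnQ, div_le_iff₀ (by positivity)]
      have h1 : Q ^ 19 = Q ^ 9 * Q ^ 10 := by ring
      have h2 : (8 : ℝ) ≤ Q ^ 9 := by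
        calc (8 : ℝ) ≤ Q := by linarith
          _ ≤ Q ^ 9 := le_self_pow₀ (by linarith) (by norm_num)
      have h3 : 0 < Q ^ 10 := by positivity
      nlinarith)) hT hbad
  have hm1' : κ / 2 < ∫ X, tf ((rowSum X - Bc (1 / 3) * (1 / 3) * n) / √n)
      ∂(uniformOn (tables (margins 6 (1 / 3) (19 / 20) n) (margins 6 (1 / 3) (19 / 20) n))) := hm1
  rw [tables_eq] at hm1'
  have hfin : ∫ X, tf ((rowSum X - Bc (1 / 3) * (1 / 3) * n) / √n)
      ∂(uniformOn ((tab (margins 6 (1 / 3) (19 / 20) n) :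
        Finset ((Fin ⌊(n : ℝ) ^ (19 / 20 : ℝ)⌋₊ ⊕ Fin n) ×
          (Fin ⌊(n : ℝ) ^ (19 / 20 : ℝ)⌋₊ ⊕ Fin n) → ℕ)) :
        Set ((Fin ⌊(n : ℝ) ^ (19 / 20 : ℝ)⌋₊ ⊕ Fin n) ×
          (Fin ⌊(n : ℝ) ^ (19 / 20 : ℝ)⌋₊ ⊕ Fin n) → ℕ))) ≤ κ / 8 + 2 * Real.exp (-Q) := hub
  linarith

end Pool.Agent.Results.MP_1d48d5_pr.BlockRowSumShift
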