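import Mathlib
import Pool.Agent.R974.CT.R

/-!
# MP_1d48d5_pr : fluctuations of a block row sum in random contingency tables

The conjectured central limit theorem is false: it fails for `C = 1/3`, `B = 6`, `δ = 3/4`.
-/

namespace Pool.Agent.Results.MP_1d48d5_pr.NoCLT

open MeasureTheory ProbabilityTheory Filter Topology Pool.Agent.R974.CT
open scoped ENNReal NNReal

/-- `𝓜(r,c)`: contingency tables with row sums `r` and column sums `c`. -/
def Tables {m m' : ℕ} (r : Fin m → ℕ) (c : Fin m' → ℕ) : Set (Fin m → Fin m' → ℕ) :=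
  {X | (∀ i, ∑ j, X i j = r i) ∧ ∀ j, ∑ i, X i j = c j}

/-- `d = ⌊n^δ⌋`. -/
noncomputable def dd (δ : ℝ) (n : ℕ) : ℕ := ⌊(n:ℝ)^δ⌋₊

/-- The margins: `⌊BCn⌋` for the first `d` indices, `⌊Cn⌋` for the remaining `n` ones. -/
noncomputable def rr (B C δ : ℝ) (n : ℕ) : Fin (dd δ n + n) → ℕ :=
  fun i => if (i : ℕ) < dd δ n then ⌊B * C * n⌋₊ else ⌊C * n⌋₊

/-- `𝓜_{n,δ}(B,C)`. -/
def tables (B C δ : ℝ) (n : ℕ) : Set (Fin (dd δ n + n) → Fin (dd δ n + n) → ℕ) :=
  Tables (rr B C δ n) (rr B C δ n)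

theorem tables_finite (B C δ : ℝ) (n : ℕ) : (tables B C δ n).Finite := by
  have : tables B C δ n = ↑(TabF (rr B C δ n) (rr B C δ n)) := by
    ext X
    rw [Finset.mem_coe, mem_TabF]; rfl
  rw [this]
  exact Finset.finite_toSet _

theorem tables_nonempty (B C δ : ℝ) (n : ℕ) : (tables B C δ n).Nonempty := by
  refine ⟨fun i j => if i = j then rr B C δ n i else 0, fun i => ?_, fun j => ?_⟩
  · simp
  · simp

/-- `S_{n,δ}(B,C) = ∑_{k=1}^n X_{1,k+d}` (the first row has index `0`). -/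
noncomputable def S (δ : ℝ) (n : ℕ) (X : Fin (dd δ n + n) → Fin (dd δ n + n) → ℕ) : ℕ :=
  if h : 0 < dd δ n + n then ∑ k : Fin n, X ⟨0, h⟩ (Fin.natAdd (dd δ n) k) else 0

/-- `B_c = 1 + √(1 + 1/C)`. -/
noncomputable def Bc (C : ℝ) : ℝ := 1 + √(1 + 1/C)

/-- The law of `(S_{n,δ}(B,C) - B_c C n)/√n` when `X` is uniform on `𝓜_{n,δ}(B,C)`. -/
noncomputable def law (B C δ : ℝ) (n : ℕ) : ProbabilityMeasure ℝ :=
  ⟨(uniformOn (tables B C δ n)).map (fun X => ((S δ n X : ℝ) - Bc C * C * n) / √n),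
    haveI := isProbabilityMeasure_uniformOn (tables_finite B C δ n) (tables_nonempty B C δ n)
    Measure.isProbabilityMeasure_map (measurable_of_countable _).aemeasurable⟩

/-- The law of `√(B_c C + (B_c C)²) · 𝒩(0,1)`. -/
noncomputable def target (C : ℝ) : ProbabilityMeasure ℝ :=
  ⟨(gaussianReal 0 1).map (fun z => √(Bc C * C + (Bc C * C)^2) * z),
    Measure.isProbabilityMeasure_map (by fun_prop)⟩

/-- The statement of Q1. -/
def Q1 : Prop := ∀ C B δ : ℝ, 0 < C → Bc C < B → 0 < δ → δ < 1 →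
  Tendsto (fun n : ℕ => law B C δ n) atTop (𝓝 (target C))

theorem Bc_third : Bc (1/3) = 3 := by
  unfold Bc
  have : (1:ℝ) + 1/(1/3) = 2^2 := by norm_num
  rw [this, Real.sqrt_sq (by norm_num)]; norm_num

theorem prob_count (B C δ : ℝ) (n : ℕ) (E : Set (Fin (dd δ n + n) → Fin (dd δ n + n) → ℕ))
    (F : Finset (Fin (dd δ n + n) → Fin (dd δ n + n) → ℕ)) (hF : tables B C δ n ∩ E = ↑F) :
    uniformOn (tables B C δ n) E =
      ENNReal.ofReal ((F.card : ℝ) / ((TabF (rr B C δ n) (rr B C δ n)).card : ℝ)) := by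
  have ht : tables B C δ n = ↑(TabF (rr B C δ n) (rr B C δ n)) := by
    ext X
    rw [Finset.mem_coe, mem_TabF]; rfl
  have hpos : 0 < (TabF (rr B C δ n) (rr B C δ n)).card := by
    rw [Finset.card_pos, ← Finset.coe_nonempty, ← ht]
    exact tables_nonempty B C δ n
  rw [uniformOn, cond_apply (tables_finite B C δ n).measurableSet, hF, ht, Measure.count_apply_finset,
    Measure.count_apply_finset, ENNReal.ofReal_div_of_pos (by exact_mod_cast hpos), ENNReal.ofReal_natCast,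
    ENNReal.ofReal_natCast, ENNReal.div_eq_inv_mul]

theorem main_bound : ∀ᶠ k : ℕ in atTop,
    (law 6 (1/3) (3/4) ((6*k)^4) : Measure ℝ) (Set.Ici (-1)) ≤
      ENNReal.ofReal (1/2 + Real.exp (-((6*k:ℕ):ℝ))) := by
  have h6 : Tendsto (fun k : ℕ => 6*k) atTop atTop :=
    tendsto_atTop_mono (fun k => by simp only [id]; omega) tendsto_id
  filter_upwards [h6.eventually err_small, h6.eventually (eventually_ge_atTop 100)] with k hk hk100
  set N := 6*k with hN
  set n := N^4 with hn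
  set x : ℝ := (N:ℝ) with hx
  have hx100 : 100 ≤ x := by rw [hx]; exact_mod_cast hk100
  have hx0 : 0 < x := by linarith
  have hnx : (n:ℝ) = x^4 := by rw [hn, hx]; push_cast; ring
  -- d
  have hdN : dd (3/4) n = N^3 := by
    unfold dd
    have : (n:ℝ)^(3/4:ℝ) = ((N^3:ℕ):ℝ) := by
      rw [hnx, ← Real.rpow_natCast x 4, ← Real.rpow_mul hx0.le]
      have : ((4:ℕ):ℝ) * (3/4) = ((3:ℕ):ℝ) := by norm_num
      rw [this, Real.rpow_natCast, hx]; push_cast; ring
    rw [this, Nat.floor_natCast]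
  set d := dd (3/4) n with hd
  have hdx : (d:ℝ) = x^3 := by rw [hdN, hx]; push_cast; ring
  set R := ⌊(6:ℝ) * (1/3) * n⌋₊ with hR
  set s := ⌊(1/3:ℝ) * n⌋₊ with hs
  have hRx : (R:ℝ) = 2*x^4 := by
    have e : (6:ℝ) * (1/3) * n = ((2*N^4:ℕ):ℝ) := by
      rw [hnx, hx]; push_cast; ring
    rw [hR, e, Nat.floor_natCast, hx]; push_cast; ring
  have hsx : (s:ℝ) = x^4/3 := by
    have e : (1/3:ℝ) * n = ((432*k^4:ℕ):ℝ) := by
      rw [hnx, hx, hN]; push_cast; ring
    have e2 : x^4/3 = (1/3:ℝ) * n := by rw [hnx]; ring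
    rw [e2, e, hs, e, Nat.floor_natCast]
  have hpar : Par N d n (108*k^3) R s (5832*k^6) x := by
    refine ⟨rfl, hx100, hdx, hnx, ?_, hRx, hsx, ?_⟩
    · rw [hx, hN]; push_cast; ring
    · rw [hx, hN]; push_cast; ring
  have herr := hk d n R s hdx hnx hRx hsx
  -- the set A
  set A : Finset (Fin (d+n)) := Finset.univ.filter (fun i => (i:ℕ) < d) with hA
  have hmemA : ∀ i : Fin (d+n), i ∈ A ↔ (i:ℕ) < d := by
    intro i; rw [hA, Finset.mem_filter]; simp
  have hsumAc : ∀ (g : Fin (d+n) → ℕ), ∑ j ∈ Aᶜ, g j = ∑ k : Fin n, g (Fin.natAdd d k) := by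
    intro g
    have h1 : ∑ j ∈ Aᶜ, g j = ∑ j : Fin (d+n), if (j:ℕ) < d then 0 else g j := by
      rw [← Finset.sum_filter_add_sum_filter_not Finset.univ (fun j : Fin (d+n) => j ∈ Aᶜ)
        (fun j => if (j:ℕ) < d then 0 else g j)]
      have e1 : ∑ j ∈ Finset.univ.filter (fun j : Fin (d+n) => j ∈ Aᶜ), (if (j:ℕ) < d then 0 else g j) =
          ∑ j ∈ Aᶜ, g j := by
        have : Finset.univ.filter (fun j : Fin (d+n) => j ∈ Aᶜ) = Aᶜ := by
          ext j; simp
        rw [this]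
        apply Finset.sum_congr rfl
        intro j hj
        rw [Finset.mem_compl, hmemA] at hj
        rw [if_neg hj]
      have e2 : ∑ j ∈ Finset.univ.filter (fun j : Fin (d+n) => ¬ j ∈ Aᶜ), (if (j:ℕ) < d then 0 else g j) = 0 := by
        apply Finset.sum_eq_zero
        intro j hj
        rw [Finset.mem_filter, Finset.mem_compl, not_not, hmemA] at hj
        rw [if_pos hj.2]
      rw [e1, e2, add_zero]
    rw [h1, Fin.sum_univ_add]
    simp
  have hcardA : A.card = d := by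
    rw [hA, Finset.card_filter, Fin.sum_univ_add]
    simp
  have hcardAc : Aᶜ.card = n := by
    rw [Finset.card_compl, hcardA, Fintype.card_fin]; omega
  have hdpos : 0 < d := by
    rw [hdN]; positivity
  have h0 : 0 < d + n := by omega
  have hi0 : (⟨0, h0⟩ : Fin (d+n)) ∈ A := by rw [hmemA]; exact hdpos
  have hmain := main_finite A hpar hcardA hcardAc ⟨0, h0⟩ hi0
  have hrr : rr 6 (1/3) (3/4) n = marg A R s := by
    funext i
    unfold rr marg
    by_cases h : (i:ℕ) < d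
    · rw [if_pos h, if_pos ((hmemA i).mpr h)]
    · rw [if_neg h, if_neg (fun h' => h ((hmemA i).mp h'))]
  set F := (TabF (marg A R s) (marg A R s)).filter (fun X => N^4 - N^2 ≤ Srow A X ⟨0, h0⟩) with hF
  have hEF : tables 6 (1/3) (3/4) n ∩
      ((fun X => ((S (3/4) n X : ℝ) - Bc (1/3) * (1/3) * n) / √n) ⁻¹' (Set.Ici (-1))) = ↑F := by
    ext X
    have hS : S (3/4) n X = Srow A X ⟨0, h0⟩ := by
      unfold S Srow
      rw [dif_pos h0, hsumAc]
    have hsqrt : √(n:ℝ) = x^2 := by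
      rw [hnx]
      have : x^4 = (x^2)^2 := by ring
      rw [this, Real.sqrt_sq (by positivity)]
    have hiff : (-1 ≤ ((S (3/4) n X : ℝ) - Bc (1/3) * (1/3) * n) / √n) ↔ N^4 - N^2 ≤ Srow A X ⟨0, h0⟩ := by
      rw [hsqrt, Bc_third, le_div_iff₀ (by positivity), hS, hnx]
      have h24 : N^2 ≤ N^4 := Nat.pow_le_pow_right (by omega) (by norm_num)
      have : (N^4 - N^2 ≤ Srow A X ⟨0, h0⟩) ↔ ((N^4 - N^2 : ℕ) : ℝ) ≤ (Srow A X ⟨0, h0⟩ : ℝ) := by
        rw [Nat.cast_le]
      rw [this, Nat.cast_sub h24]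
      push_cast
      rw [← hx]
      constructor <;> intro h <;> linarith
    have ht : X ∈ tables 6 (1/3) (3/4) n ↔ X ∈ TabF (marg A R s) (marg A R s) := by
      rw [mem_TabF, ← hrr]; rfl
    rw [Finset.mem_coe, hF, Finset.mem_filter]
    constructor
    · rintro ⟨h1, h2⟩
      have h2' : -1 ≤ ((S (3/4) n X : ℝ) - Bc (1/3) * (1/3) * n) / √n := h2
      exact ⟨ht.mp h1, hiff.mp h2'⟩
    · rintro ⟨h1, h2⟩
      exact ⟨ht.mpr h1, hiff.mpr h2⟩
  have hlaw : (law 6 (1/3) (3/4) n : Measure ℝ) (Set.Ici (-1)) =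
      uniformOn (tables 6 (1/3) (3/4) n)
        ((fun X => ((S (3/4) n X : ℝ) - Bc (1/3) * (1/3) * n) / √n) ⁻¹' (Set.Ici (-1))) := by
    show ((uniformOn (tables 6 (1/3) (3/4) n)).map _) (Set.Ici (-1)) = _
    rw [Measure.map_apply (measurable_of_countable _) measurableSet_Ici]
  rw [hlaw, prob_count 6 (1/3) (3/4) n _ F hEF]
  apply ENNReal.ofReal_le_ofReal
  have hTT : (0:ℝ) < ((TabF (rr 6 (1/3) (3/4) n) (rr 6 (1/3) (3/4) n)).card : ℝ) := by
    have hpos : 0 < (TabF (rr 6 (1/3) (3/4) n) (rr 6 (1/3) (3/4) n)).card := by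
      rw [Finset.card_pos, ← Finset.coe_nonempty]
      have : (↑(TabF (rr 6 (1/3) (3/4) n) (rr 6 (1/3) (3/4) n)) :
          Set (Fin (dd (3/4) n + n) → Fin (dd (3/4) n + n) → ℕ)) = tables 6 (1/3) (3/4) n := by
        ext X
        rw [Finset.mem_coe, mem_TabF]; rfl
      rw [this]
      exact tables_nonempty 6 (1/3) (3/4) n
    exact_mod_cast hpos
  rw [div_le_iff₀ hTT]
  have hTTeq : TT A R s = ((TabF (rr 6 (1/3) (3/4) n) (rr 6 (1/3) (3/4) n)).card : ℝ) := by
    unfold TT; rw [hrr]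
  rw [hTTeq] at hmain
  refine hmain.trans ?_
  apply mul_le_mul_of_nonneg_right _ hTT.le
  linarith

theorem gauss_half : 1/2 < (gaussianReal 0 1).real (Set.Ioi (-(1/2))) := by
  set ν := gaussianReal 0 1 with hν
  have hsymm : ν.real (Set.Iic (-(1/2))) = ν.real (Set.Ici (1/2)) := by
    have h1 : ν.map (fun x => -x) = ν := by
      rw [hν, gaussianReal_map_neg, neg_zero]
    conv_lhs => rw [← h1]
    rw [map_measureReal_apply (by fun_prop) measurableSet_Iic]
    congr 1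
    ext z
    simp only [Set.mem_preimage, Set.mem_Iic, Set.mem_Ici]
    constructor <;> intro h <;> linarith
  have hpos : 0 < ν.real (Set.Ioo (-(1/2)) (1/2)) := by
    rw [measureReal_def, ENNReal.toReal_pos_iff]
    refine ⟨?_, measure_lt_top _ _⟩
    rw [pos_iff_ne_zero]
    intro h0
    have := gaussianReal_absolutelyContinuous' 0 (one_ne_zero) h0
    rw [Real.volume_Ioo] at this
    norm_num at this
  have hsum : ν.real (Set.Ici (1/2)) + ν.real (Set.Ioo (-(1/2)) (1/2)) ≤ ν.real (Set.Ioi (-(1/2))) := by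
    rw [← measureReal_union _ measurableSet_Ioo]
    · apply measureReal_mono _ (measure_ne_top _ _)
      intro z hz
      rcases hz with hz | hz
      · have : (1/2:ℝ) ≤ z := hz
        show -(1/2:ℝ) < z
        linarith
      · exact hz.1
    · rw [Set.disjoint_left]
      intro z hz hz'
      have h1 : (1/2:ℝ) ≤ z := hz
      have h2 : z < 1/2 := hz'.2
      linarith
  have hcompl : ν.real (Set.Ioi (-(1/2))) = 1 - ν.real (Set.Iic (-(1/2))) := by
    rw [← Set.compl_Iic, probReal_compl_eq_one_sub measurableSet_Iic]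
  linarith

theorem target_half : ENNReal.ofReal (1/2) < (target (1/3) : Measure ℝ) (Set.Ioi (-1)) := by
  have h1 : (target (1/3) : Measure ℝ) (Set.Ioi (-1)) =
      gaussianReal 0 1 ((fun z => √(Bc (1/3) * (1/3) + (Bc (1/3) * (1/3))^2) * z) ⁻¹' (Set.Ioi (-1))) := by
    show ((gaussianReal 0 1).map _) (Set.Ioi (-1)) = _
    rw [Measure.map_apply (by fun_prop) measurableSet_Ioi]
  rw [h1, Bc_third]
  have e : (3:ℝ) * (1/3) + (3 * (1/3))^2 = 2 := by norm_num
  rw [e]
  have hsub : Set.Ioi (-(1/2) : ℝ) ⊆ (fun z => √2 * z) ⁻¹' (Set.Ioi (-1)) := by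
    intro z hz
    have hz' : -(1/2) < z := hz
    show -1 < √2 * z
    have hs : √2 ≤ 2 := by rw [Real.sqrt_le_left (by norm_num)]; norm_num
    have hs0 : 0 < √2 := by positivity
    nlinarith
  refine lt_of_lt_of_le ?_ (measure_mono hsub)
  have := gauss_half
  rw [measureReal_def] at this
  rw [ENNReal.ofReal_lt_iff_lt_toReal (by norm_num) (measure_ne_top _ _)]
  exact this

theorem not_clt : ¬ Tendsto (fun n : ℕ => law 6 (1/3) (3/4) n) atTop (𝓝 (target (1/3))) := by
  intro h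
  have h4 : Tendsto (fun k : ℕ => (6*k)^4) atTop atTop := by
    have h6 : Tendsto (fun k : ℕ => 6*k) atTop atTop :=
      tendsto_atTop_mono (fun k => by simp only [id]; omega) tendsto_id
    exact (tendsto_pow_atTop (by norm_num)).comp h6
  have h5 := h.comp h4
  have h6 := ProbabilityMeasure.le_liminf_measure_open_of_tendsto h5 (isOpen_Ioi (a := (-1:ℝ)))
  have hexp : Tendsto (fun k : ℕ => ENNReal.ofReal (1/2 + Real.exp (-((6*k:ℕ):ℝ)))) atTop
      (𝓝 (ENNReal.ofReal (1/2))) := by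
    apply ENNReal.tendsto_ofReal
    have : Tendsto (fun k : ℕ => Real.exp (-((6*k:ℕ):ℝ))) atTop (𝓝 0) := by
      apply Real.tendsto_exp_neg_atTop_nhds_zero.comp
      exact tendsto_natCast_atTop_atTop.comp (tendsto_atTop_mono (fun k => by simp only [id]; omega) tendsto_id)
    have h8 := this.const_add (1/2)
    rw [add_zero] at h8
    exact h8
  have h7 : liminf (fun k : ℕ => (((fun n : ℕ => law 6 (1/3) (3/4) n) ∘ (fun k : ℕ => (6*k)^4)) k : Measure ℝ)
      (Set.Ioi (-1))) atTop ≤ ENNReal.ofReal (1/2) := by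
    rw [← hexp.liminf_eq]
    refine liminf_le_liminf ?_ (by isBoundedDefault) (by isBoundedDefault)
    filter_upwards [main_bound] with k hk
    exact (measure_mono Set.Ioi_subset_Ici_self).trans hk
  exact absurd (h6.trans h7) (not_le.mpr target_half)

/-- **The conjectured central limit theorem is false.**
For `C = 1/3`, `B = 6 > B_c = 3`, `δ = 3/4` the law of `(S_{n,δ}(B,C) - B_c C n)/√n` does not converge to
the centred normal law with variance `B_c C + (B_c C)² = 2`; in particular the statement `Q1` is false.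
Quantitatively, along `n = (6k)^4` one has `P((S - B_c C n)/√n ≥ -1) ≤ 1/2 + e^{-6k}` for large `k`. -/
theorem result :
    ¬ Q1 ∧
    (Bc (1/3) < 6 ∧ ¬ Tendsto (fun n : ℕ => law 6 (1/3) (3/4) n) atTop (𝓝 (target (1/3)))) ∧
    (∀ᶠ k : ℕ in atTop, (law 6 (1/3) (3/4) ((6*k)^4) : Measure ℝ) (Set.Ici (-1)) ≤
      ENNReal.ofReal (1/2 + Real.exp (-((6*k:ℕ):ℝ)))) := by
  have hB : Bc (1/3) < 6 := by rw [Bc_third]; norm_num
  refine ⟨?_, ⟨hB, not_clt⟩, main_bound⟩
  intro h
  exact not_clt (h (1/3) 6 (3/4) (by norm_num) hB (by norm_num) (by norm_num))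

end Pool.Agent.Results.MP_1d48d5_pr.NoCLT
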